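import Pool.Agent.TH852.SP.Stmts
set_option autoImplicit false
namespace Pool.Agent.TH22.VS
open Set
open scoped IntermediateField.algebraAdjoinAdjoin

theorem tr (ι κ : Type) [Fintype ι] [Fintype κ] (x : ι → ℂ) (y : κ → ℂ)
    (hx : AlgebraicIndependent ℚ x)
    (hxy : ∀ i, IsAlgebraic (IntermediateField.adjoin ℚ (Set.range y)) (x i)) :
    Fintype.card ι ≤ Fintype.card κ ∧
      (Fintype.card ι = Fintype.card κ → AlgebraicIndependent ℚ y) := by
  classical
  have hsub : range x ⊆ (AlgebraicIndependent.matroid ℚ ℂ).closure (range y) := by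
    rw [AlgebraicIndependent.matroid_closure_eq]
    rintro _ ⟨i, rfl⟩
    rw [SetLike.mem_coe, Subalgebra.mem_algebraicClosure]
    exact (IsFractionRing.isAlgebraic_iff (Algebra.adjoin ℚ (Set.range y))
      (IntermediateField.adjoin ℚ (Set.range y)) ℂ).2 (hxy i)
  have hI : (AlgebraicIndependent.matroid ℚ ℂ).Indep (range x) := by
    rw [AlgebraicIndependent.matroid_indep_iff]
    exact (algebraicIndependent_subtype_range hx.injective).2 hx
  have h1 : (range x).encard ≤ (AlgebraicIndependent.matroid ℚ ℂ).eRk (range y) := by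
    rw [← hI.eRk_eq_encard, ← (AlgebraicIndependent.matroid ℚ ℂ).eRk_closure_eq (range y)]
    exact (AlgebraicIndependent.matroid ℚ ℂ).eRk_mono hsub
  have h2 : (range x).encard = Fintype.card ι := by
    rw [← Set.image_univ, hx.injective.encard_image, Set.encard_univ, ENat.card_eq_coe_fintype_card]
  have h3 : (range y).encard ≤ Fintype.card κ := by
    rw [← Set.image_univ]
    refine (Set.encard_image_le _ _).trans ?_
    rw [Set.encard_univ, ENat.card_eq_coe_fintype_card]
  have h4 := (AlgebraicIndependent.matroid ℚ ℂ).eRk_le_encard (range y)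
  rw [h2] at h1
  refine ⟨by exact_mod_cast (h1.trans h4).trans h3, fun heq => ?_⟩
  rw [heq] at h1
  have h5 : (range y).encard = Fintype.card κ := le_antisymm h3 (h1.trans h4)
  have h6 : (AlgebraicIndependent.matroid ℚ ℂ).eRk (range y) = (range y).encard :=
    le_antisymm h4 (h5.le.trans h1)
  have hinj : Function.Injective y := by
    have h7 : (y '' univ).encard = (univ : Set κ).encard := by
      rw [Set.image_univ, h5, Set.encard_univ, ENat.card_eq_coe_fintype_card]
    have := (Set.Finite.injOn_of_encard_image_eq (Set.toFinite _) h7)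
    exact fun a b hab => this (mem_univ _) (mem_univ _) hab
  have h8 : (AlgebraicIndependent.matroid ℚ ℂ).Indep (range y) := by
    rw [Matroid.indep_iff_eRk_eq_encard_of_finite (Set.toFinite _)]
    exact h6
  rw [AlgebraicIndependent.matroid_indep_iff] at h8
  exact (algebraicIndependent_subtype_range hinj).1 h8

theorem t_TR : Pool.Agent.TH852.SP.S_TR := by
  intro ι κ _ _ x y hx hxy
  exact tr ι κ x y hx hxy

end Pool.Agent.TH22.VS
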